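import Pool.Agent.P.MP_ddd490_co.Graph

namespace Pool.Agent.Results.MP_ddd490_co.NoDomination

open Pool.Agent.P.MP_ddd490_co

/-- For every `n` there are a finite `n`-connected bipartite graph and a vertex `s` such that
every vertex set `A` that contains `s` and induces a subgraph of minimum degree at least `3`
contains all neighbours of each of `n` different vertices. -/
theorem result (n : ℕ) :
    ∃ (V : Type) (_ : Fintype V) (G : SimpleGraph V) (s : V), G.Colorable 2 ∧
      (n < Nat.card V ∧
        ∀ X : Finset V, X.card < n → (G.induce ((X : Set V)ᶜ)).Connected) ∧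
      ∀ A : Set V, s ∈ A → (∀ v ∈ A, 3 ≤ (A ∩ G.neighborSet v).ncard) →
        n ≤ {w : V | G.neighborSet w ⊆ A}.ncard := by
  have hf : 0 < n + 1 := Nat.succ_pos n
  refine ⟨Vx (n + 1), Fintype.ofFinite _, Gr (n + 1), Sum.inl ⟨[], Nat.zero_le _⟩, ?_,
    ⟨lt_trans (Nat.lt_succ_self n) (card_big hf), fun X hX => connected_of_small X (by omega)⟩,
    fun A h0 hA => ?_⟩
  · let c : Vx (n + 1) → ℕ := fun v => match v with
      | Sum.inl t => t.1.length
      | Sum.inr _ => n + 2
    have key : ∀ u v, Arc (n + 1) u v → c v = c u + 1 := by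
      rintro (t | w) (t' | w') h
      · obtain ⟨a, ha⟩ := h
        change t'.1.length = t.1.length + 1
        rw [ha, List.length_cons]
      · have := w'.1.2.2 t h
        change n + 2 = t.1.length + 1
        omega
      · exact h.elim
      · exact h.elim
    refine ⟨SimpleGraph.Coloring.mk (fun v => ⟨c v % 2, Nat.mod_lt _ two_pos⟩) ?_⟩
    intro u v h e
    have e' : c u % 2 = c v % 2 := congrArg Fin.val e
    rw [Gr, SimpleGraph.fromRel_adj] at h
    rcases h.2 with h | h
    · have := key _ _ h
      omega
    · have := key _ _ h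
      omega
  · have h1 := many_leaves A hA h0 (n + 1) le_rfl
    let Y : Big (n + 1) :=
      ⟨{t : Tr (n + 1) | t.1.length = n + 1 ∧ (Sum.inl t : Vx (n + 1)) ∈ A}, by omega,
        fun t ht => ht.1⟩
    let g : Fin (n + 1) → Vx (n + 1) := fun i => Sum.inr (Y, i)
    have hg : Function.Injective g := fun i j h => (Prod.ext_iff.1 (Sum.inr_injective h)).2
    have hsub : Set.range g ⊆ {w | (Gr (n + 1)).neighborSet w ⊆ A} := by
      rintro _ ⟨i, rfl⟩ v hv
      obtain ⟨t, ht, rfl⟩ := killer_nbr _ v hv
      exact ht.2
    have := Set.ncard_le_ncard hsub (Set.toFinite _)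
    rw [Set.ncard_range_of_injective hg, Nat.card_eq_fintype_card, Fintype.card_fin] at this
    omega

end Pool.Agent.Results.MP_ddd490_co.NoDomination
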